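import Mathlib
import Pool.Agent.Q290.SC.Stm

set_option autoImplicit false

/-! All transvections are in the group generated by Humphries' transvections. -/

namespace Pool.Agent.Q86.SC

open Pool.Agent.Q290.SC Pool.Agent.H29R2.MG

variable {g : ℕ}

/-- all transvections in the direction `v` are in the group generated by `HumS g` -/
def InV (v : VV g) : Prop := ∀ t : ℤ, T v t ∈ Subgroup.closure (HumS g)

theorem inV_act {X : SpG g} (hX : X ∈ Subgroup.closure (HumS g)) {v : VV g}
    (hv : InV (ac X v)) : InV v := by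
  intro t
  have h := T_conj X⁻¹ (ac X v) t
  rw [ac_self_inv, inv_inv] at h
  rw [← h]
  exact mul_mem (mul_mem (inv_mem hX) (hv t)) hX

theorem inV_act' {X : SpG g} (hX : X ∈ Subgroup.closure (HumS g)) {v : VV g}
    (hv : InV v) : InV (ac X v) := by
  intro t
  rw [← T_conj]
  exact mul_mem (mul_mem hX (hv t)) (inv_mem hX)

theorem inV_smul {v : VV g} (c : ℤ) (hv : InV v) : InV (c • v) := by
  intro t
  rw [T_smul]
  exact hv _

theorem inV_of_one {v : VV g} (h : T v 1 ∈ Subgroup.closure (HumS g)) : InV v := by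
  intro t
  have h2 := T_zpow v 1 t
  rw [mul_one] at h2
  rw [← h2]
  exact zpow_mem h t

theorem inV_ve (i : Fin g) : InV (ve i) :=
  inV_of_one (Subgroup.subset_closure (Or.inl ⟨i, rfl⟩))

theorem inV_vf (i : Fin g) : InV (vf i) :=
  inV_of_one (Subgroup.subset_closure (Or.inr (Or.inl ⟨i, rfl⟩)))

theorem inV_nb {i j : Fin g} (h : (j : ℕ) = i + 1 ∨ (i : ℕ) = j + 1) : InV (ve i + ve j) := by
  rcases h with h | h
  · exact inV_of_one (Subgroup.subset_closure (Or.inr (Or.inr ⟨i, j, h, rfl⟩)))
  · rw [add_comm]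
    exact inV_of_one (Subgroup.subset_closure (Or.inr (Or.inr ⟨j, i, h, rfl⟩)))

theorem inV_fe {i j : Fin g} (h : (j : ℕ) = i + 1 ∨ (i : ℕ) = j + 1) : InV (vf i + ve j) := by
  have hij : i ≠ j := by rintro rfl; omega
  have e : ac (T (ve i) (-1)) (ac (T (vf i) (-1)) (ve i + ve j)) = vf i + ve j := by
    simp only [ac_T, om_add_right, om_smul_right, om_ve, om_vf]
    have h1 : (ve i : VV g) (Sum.inl i) = 1 := by simp [ve]
    have h2 : (ve i : VV g) (Sum.inr i) = 0 := by simp [ve]
    have h3 : (vf i : VV g) (Sum.inr i) = 1 := by simp [vf]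
    have h4 : (ve j : VV g) (Sum.inl i) = 0 := by simp [ve, hij]
    have h5 : (ve j : VV g) (Sum.inr i) = 0 := by simp [ve]
    rw [h1, h2, h3, h4, h5]
    module
  rw [← e]
  exact inV_act' (inV_ve i _) (inV_act' (inV_vf i _) (inV_nb h))

theorem E_mem' {u v : VV g} (hu : InV u) (hv : InV v) (huv : InV (u + v)) (t : ℤ) :
    E u v t ∈ Subgroup.closure (HumS g) := mul_mem (mul_mem (huv t) (hu _)) (hv _)

/-- a vector with given coordinates in the handles `i` and `j` -/
def wv (z : VV g) (i j : Fin g) (a b c d : ℤ) : VV g :=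
  z + (a • ve i + b • vf i + c • ve j + d • vf j)

/-- `z` has no coordinates in the handles `i` and `j` -/
structure ZZ (z : VV g) (i j : Fin g) : Prop where
  ij : i ≠ j
  zi : z (Sum.inl i) = 0
  zi' : z (Sum.inr i) = 0
  zj : z (Sum.inl j) = 0
  zj' : z (Sum.inr j) = 0

section
variable {z : VV g} {i j : Fin g} (h : ZZ z i j) (a b c d : ℤ)
include h

theorem wv1 : wv z i j a b c d (Sum.inl i) = a := by
  have := h.ij
  simp [wv, ve, vf, h.zi, this]

theorem wv2 : wv z i j a b c d (Sum.inr i) = b := by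
  have := h.ij
  simp [wv, ve, vf, h.zi', this]

theorem wv3 : wv z i j a b c d (Sum.inl j) = c := by
  have := h.ij.symm
  simp [wv, ve, vf, h.zj, this]

theorem wv4 : wv z i j a b c d (Sum.inr j) = d := by
  have := h.ij.symm
  simp [wv, ve, vf, h.zj', this]

theorem ht1 (t : ℤ) (hP : InV (wv z i j (a + t * b) b c d)) : InV (wv z i j a b c d) := by
  refine inV_act (X := T (ve i) t) (inV_ve i t) ?_
  have e : ac (T (ve i) t) (wv z i j a b c d) = wv z i j (a + t * b) b c d := by
    rw [ac_T, om_ve, wv2 h]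
    unfold wv
    module
  rw [e]
  exact hP

theorem ht2 (t : ℤ) (hP : InV (wv z i j a (b + t * a) c d)) : InV (wv z i j a b c d) := by
  refine inV_act (X := T (vf i) (-t)) (inV_vf i _) ?_
  have e : ac (T (vf i) (-t)) (wv z i j a b c d) = wv z i j a (b + t * a) c d := by
    rw [ac_T, om_vf, wv1 h]
    unfold wv
    module
  rw [e]
  exact hP

theorem ht3 (t : ℤ) (hP : InV (wv z i j a b (c + t * d) d)) : InV (wv z i j a b c d) := by
  refine inV_act (X := T (ve j) t) (inV_ve j t) ?_
  have e : ac (T (ve j) t) (wv z i j a b c d) = wv z i j a b (c + t * d) d := by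
    rw [ac_T, om_ve, wv4 h]
    unfold wv
    module
  rw [e]
  exact hP

theorem ht4 (t : ℤ) (hP : InV (wv z i j a b c (d + t * c))) : InV (wv z i j a b c d) := by
  refine inV_act (X := T (vf j) (-t)) (inV_vf j _) ?_
  have e : ac (T (vf j) (-t)) (wv z i j a b c d) = wv z i j a b c (d + t * c) := by
    rw [ac_T, om_vf, wv3 h]
    unfold wv
    module
  rw [e]
  exact hP

theorem ht5 (hnb : (j : ℕ) = i + 1 ∨ (i : ℕ) = j + 1) (t : ℤ)
    (hP : InV (wv z i j (a + t * c) 0 c 0)) : InV (wv z i j a 0 c 0) := by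
  refine inV_act (X := E (vf j) (ve i) (-t))
    (E_mem' (inV_vf j) (inV_ve i) (inV_fe (Or.comm.1 hnb)) _) ?_
  have h0 : om (vf j : VV g) (ve i) = 0 := by
    rw [om_vf]; simp [ve, h.ij.symm]
  have e : ac (E (vf j) (ve i) (-t)) (wv z i j a 0 c 0) = wv z i j (a + t * c) 0 c 0 := by
    rw [ac_E h0, om_vf, wv3 h, om_ve, wv2 h]
    unfold wv
    module
  rw [e]
  exact hP

theorem ht6 (hnb : (j : ℕ) = i + 1 ∨ (i : ℕ) = j + 1) (t : ℤ)
    (hP : InV (wv z i j a 0 (c + t * a) 0)) : InV (wv z i j a 0 c 0) := by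
  refine inV_act (X := E (vf i) (ve j) (-t))
    (E_mem' (inV_vf i) (inV_ve j) (inV_fe hnb) _) ?_
  have h0 : om (vf i : VV g) (ve j) = 0 := by
    rw [om_vf]; simp [ve, h.ij]
  have e : ac (E (vf i) (ve j) (-t)) (wv z i j a 0 c 0) = wv z i j a 0 (c + t * a) 0 := by
    rw [ac_E h0, om_vf, wv1 h, om_ve, wv4 h]
    unfold wv
    module
  rw [e]
  exact hP

end

/-- the weight -/
def Nw (w : VV g) : ℕ := ∑ k : Fin g, ((k : ℕ) + 1) * ((w (Sum.inl k)).natAbs + (w (Sum.inr k)).natAbs)

theorem Nw_wv {z : VV g} {i j : Fin g} (h : ZZ z i j) (a b c d : ℤ) :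
    Nw (wv z i j a b c d) = Nw z + (((i : ℕ) + 1) * (a.natAbs + b.natAbs) +
      ((j : ℕ) + 1) * (c.natAbs + d.natAbs)) := by
  have e : ∀ k : Fin g, ((k : ℕ) + 1) * ((wv z i j a b c d (Sum.inl k)).natAbs +
      (wv z i j a b c d (Sum.inr k)).natAbs) =
      ((k : ℕ) + 1) * ((z (Sum.inl k)).natAbs + (z (Sum.inr k)).natAbs) +
      ((if k = i then ((i : ℕ) + 1) * (a.natAbs + b.natAbs) else 0) +
       (if k = j then ((j : ℕ) + 1) * (c.natAbs + d.natAbs) else 0)) := by
    intro k
    by_cases h1 : k = i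
    · subst h1
      rw [wv1 h, wv2 h, h.zi, h.zi', if_pos rfl, if_neg h.ij]
      simp
    · by_cases h2 : k = j
      · subst h2
        rw [wv3 h, wv4 h, h.zj, h.zj', if_pos rfl, if_neg h1]
        simp
      · have e1 : wv z i j a b c d (Sum.inl k) = z (Sum.inl k) := by
          simp [wv, ve, vf, h1, h2]
        have e2 : wv z i j a b c d (Sum.inr k) = z (Sum.inr k) := by
          simp [wv, ve, vf, h1, h2]
        rw [e1, e2, if_neg h1, if_neg h2]
        simp
  unfold Nw
  rw [Finset.sum_congr rfl fun k _ => e k, Finset.sum_add_distrib, Finset.sum_add_distrib,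
    Finset.sum_ite_eq' , Finset.sum_ite_eq']
  simp

theorem emod_form (a b : ℤ) : a + -(a / b) * b = a % b := by
  have := Int.emod_add_mul_ediv a b
  linear_combination -this

theorem natAbs_emod {a b : ℤ} (hb : b ≠ 0) : (a % b).natAbs < b.natAbs := by
  have h1 := Int.emod_nonneg a hb
  have h2 := Int.emod_lt_abs a hb
  have h3 := Int.natCast_natAbs b
  rw [← h3] at h2
  omega

theorem arith0 (P : ℤ → ℤ → Prop) (n : ℕ)
    (h5 : ∀ a c t, P (a + t * c) c → P a c)
    (h6 : ∀ a c t, P a (c + t * a) → P a c)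
    (a c : ℤ) (hc : c ≠ 0)
    (ih : ∀ a' c' : ℤ, (n + 1) * a'.natAbs + (n + 2) * c'.natAbs <
      (n + 1) * a.natAbs + (n + 2) * c.natAbs → P a' c') : P a c := by
  have hc' : 0 < c.natAbs := Int.natAbs_pos.2 hc
  by_cases ha : a = 0
  · subst ha
    apply h5 0 c 1
    apply h6 _ c (-1)
    have e : c + -1 * (0 + 1 * c) = 0 := by ring
    rw [e]
    apply ih
    simp only [zero_add, one_mul, Int.natAbs_zero, mul_zero, add_zero]
    nlinarith
  · by_cases hle : a.natAbs ≤ c.natAbs
    · apply h6 a c (-(c / a))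
      rw [emod_form]
      apply ih
      have := natAbs_emod (a := c) ha
      have h2 : (c % a).natAbs + 1 ≤ c.natAbs := by omega
      have h3 := Nat.mul_le_mul_left (n + 2) h2
      rw [mul_add] at h3
      omega
    · apply h5 a c (-(a / c))
      rw [emod_form]
      apply ih
      have := natAbs_emod (a := a) hc
      have h2 : (a % c).natAbs + 1 ≤ a.natAbs := by omega
      have h3 := Nat.mul_le_mul_left (n + 1) h2
      rw [mul_add] at h3
      omega

/-- the reduction inside a handle -/
theorem arith1 (P : ℤ → ℤ → Prop)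
    (h1 : ∀ a b t, P (a + t * b) b → P a b)
    (h2 : ∀ a b t, P a (b + t * a) → P a b)
    (a b : ℤ)
    (h0 : P (a + b) 0)
    (ih : ∀ a' b' : ℤ, a'.natAbs + b'.natAbs < a.natAbs + b.natAbs → P a' b') : P a b := by
  by_cases ha : a = 0
  · subst ha
    apply h1 0 b 1
    apply h2 _ b (-1)
    have e : b + -1 * (0 + 1 * b) = 0 := by ring
    rw [e]
    have e2 : (0 : ℤ) + 1 * b = 0 + b := by ring
    rw [e2]
    exact h0
  · by_cases hb : b = 0
    · subst hb
      rw [add_zero] at h0
      exact h0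
    · by_cases hle : a.natAbs ≤ b.natAbs
      · apply h2 a b (-(b / a))
        rw [emod_form]
        apply ih
        have := natAbs_emod (a := b) ha
        omega
      · apply h1 a b (-(a / b))
        rw [emod_form]
        apply ih
        have := natAbs_emod (a := a) hb
        omega

/-- the reduction in two neighbouring handles -/
theorem arith (P : ℤ → ℤ → ℤ → ℤ → Prop) (n : ℕ)
    (h1 : ∀ a b c d t, P (a + t * b) b c d → P a b c d)
    (h2 : ∀ a b c d t, P a (b + t * a) c d → P a b c d)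
    (h3 : ∀ a b c d t, P a b (c + t * d) d → P a b c d)
    (h4 : ∀ a b c d t, P a b c (d + t * c) → P a b c d)
    (h5 : ∀ a c t, P (a + t * c) 0 c 0 → P a 0 c 0)
    (h6 : ∀ a c t, P a 0 (c + t * a) 0 → P a 0 c 0)
    (a b c d : ℤ) (hcd : c ≠ 0 ∨ d ≠ 0)
    (ih : ∀ a' b' c' d' : ℤ, (n + 1) * (a'.natAbs + b'.natAbs) +
      (n + 2) * (c'.natAbs + d'.natAbs) <
      (n + 1) * (a.natAbs + b.natAbs) + (n + 2) * (c.natAbs + d.natAbs) → P a' b' c' d') :
    P a b c d := by
  by_cases hab : a ≠ 0 ∧ b ≠ 0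
  · by_cases hle : a.natAbs ≤ b.natAbs
    · apply h2 a b c d (-(b / a))
      rw [emod_form]
      apply ih
      have := natAbs_emod (a := b) hab.1
      have h2 : a.natAbs + (b % a).natAbs + 1 ≤ a.natAbs + b.natAbs := by omega
      have h3 := Nat.mul_le_mul_left (n + 1) h2
      rw [mul_add] at h3
      omega
    · apply h1 a b c d (-(a / b))
      rw [emod_form]
      apply ih
      have := natAbs_emod (a := a) hab.2
      have h2 : (a % b).natAbs + b.natAbs + 1 ≤ a.natAbs + b.natAbs := by omega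
      have h3 := Nat.mul_le_mul_left (n + 1) h2
      rw [mul_add] at h3
      omega
  by_cases hcd' : c ≠ 0 ∧ d ≠ 0
  · by_cases hle : c.natAbs ≤ d.natAbs
    · apply h4 a b c d (-(d / c))
      rw [emod_form]
      apply ih
      have := natAbs_emod (a := d) hcd'.1
      have h2 : c.natAbs + (d % c).natAbs + 1 ≤ c.natAbs + d.natAbs := by omega
      have h3 := Nat.mul_le_mul_left (n + 2) h2
      rw [mul_add] at h3
      omega
    · apply h3 a b c d (-(c / d))
      rw [emod_form]
      apply ih
      have := natAbs_emod (a := c) hcd'.2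
      have h2 : (c % d).natAbs + d.natAbs + 1 ≤ c.natAbs + d.natAbs := by omega
      have h3 := Nat.mul_le_mul_left (n + 2) h2
      rw [mul_add] at h3
      omega
  have r1 : ∀ b c d, P b 0 c d → P 0 b c d := by
    intro b c d hp
    apply h1 0 b c d 1
    apply h2 _ b c d (-1)
    have e : b + -1 * (0 + 1 * b) = 0 := by ring
    have e2 : (0 : ℤ) + 1 * b = b := by ring
    rw [e, e2]
    exact hp
  have r2 : ∀ a b d, P a b d 0 → P a b 0 d := by
    intro a b d hp
    apply h3 a b 0 d 1
    apply h4 a b _ d (-1)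
    have e : d + -1 * (0 + 1 * d) = 0 := by ring
    have e2 : (0 : ℤ) + 1 * d = d := by ring
    rw [e, e2]
    exact hp
  have main : ∀ a' c' : ℤ, c' ≠ 0 → a'.natAbs = a.natAbs + b.natAbs →
      c'.natAbs = c.natAbs + d.natAbs → P a' 0 c' 0 := by
    intro a' c' hc' ea ec
    refine arith0 (fun a c => P a 0 c 0) n (fun a c t => h5 a c t) (fun a c t => h6 a c t)
      a' c' hc' (fun a'' c'' hlt => ih a'' 0 c'' 0 ?_)
    rw [← ea, ← ec]
    simpa using hlt
  by_cases ha : a = 0
  · subst ha
    apply r1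
    by_cases hc : c = 0
    · subst hc
      apply r2
      have hd : d ≠ 0 := by tauto
      exact main b d hd (by simp) (by simp)
    · have hd : d = 0 := by tauto
      subst hd
      exact main b c hc (by simp) (by simp)
  · have hb : b = 0 := by tauto
    subst hb
    by_cases hc : c = 0
    · subst hc
      apply r2
      have hd : d ≠ 0 := by tauto
      exact main a d hd (by simp) (by simp)
    · have hd : d = 0 := by tauto
      subst hd
      exact main a c hc (by simp) (by simp)

theorem inV_plane (i : Fin g) : ∀ (n : ℕ) (a b : ℤ), a.natAbs + b.natAbs ≤ n →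
    InV (a • ve i + b • vf i : VV g) := by
  intro n
  induction n with
  | zero =>
    intro a b h
    have ha : a = 0 := by omega
    have hb : b = 0 := by omega
    subst ha
    subst hb
    have := inV_smul 0 (inV_ve (g := g) i)
    rw [zero_smul] at this
    rw [zero_smul, zero_smul, add_zero]
    exact this
  | succ n ih =>
    intro a b h
    refine arith1 (fun a b => InV (a • ve i + b • vf i : VV g)) ?_ ?_ a b ?_ ?_
    · intro a b t hP
      refine inV_act (X := T (ve i) t) (inV_ve i t) ?_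
      have e : ac (T (ve i) t) (a • ve i + b • vf i : VV g) = (a + t * b) • ve i + b • vf i := by
        rw [ac_T, om_ve]
        have e1 : (a • ve i + b • vf i : VV g) (Sum.inr i) = b := by simp [ve, vf]
        rw [e1]
        module
      rw [e]
      exact hP
    · intro a b t hP
      refine inV_act (X := T (vf i) (-t)) (inV_vf i _) ?_
      have e : ac (T (vf i) (-t)) (a • ve i + b • vf i : VV g) =
          a • ve i + (b + t * a) • vf i := by
        rw [ac_T, om_vf]
        have e1 : (a • ve i + b • vf i : VV g) (Sum.inl i) = a := by simp [ve, vf]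
        rw [e1]
        module
      rw [e]
      exact hP
    · have := inV_smul (a + b) (inV_ve (g := g) i)
      rw [zero_smul, add_zero]
      exact this
    · intro a' b' hlt
      exact ih a' b' (by omega)

theorem inV_all : ∀ (n : ℕ) (w : VV g), Nw w ≤ n → InV w := by
  intro n
  induction n using Nat.strong_induction_on with
  | _ n ih =>
  intro w hw
  by_cases hj : ∃ j : Fin g, (j : ℕ) ≠ 0 ∧ (w (Sum.inl j) ≠ 0 ∨ w (Sum.inr j) ≠ 0)
  · obtain ⟨j, hj0, hj⟩ := hj
    let i : Fin g := ⟨(j : ℕ) - 1, by have := j.2; omega⟩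
    have hi : (i : ℕ) = (j : ℕ) - 1 := rfl
    have hij' : (j : ℕ) = i + 1 := by omega
    have hij : i ≠ j := by intro h'; rw [h'] at hij'; omega
    set z : VV g := w - (w (Sum.inl i) • ve i + w (Sum.inr i) • vf i + w (Sum.inl j) • ve j +
      w (Sum.inr j) • vf j) with hz
    have hji : j ≠ i := hij.symm
    have hZ : ZZ z i j := ⟨hij, by simp [hz, ve, vf, hij], by simp [hz, ve, vf, hij],
      by simp [hz, ve, vf, hji], by simp [hz, ve, vf, hji]⟩
    have hwz : w = wv z i j (w (Sum.inl i)) (w (Sum.inr i)) (w (Sum.inl j)) (w (Sum.inr j)) := by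
      unfold wv
      rw [hz]
      abel
    rw [hwz]
    refine arith (fun a b c d => InV (wv z i j a b c d)) (i : ℕ)
      (fun a b c d t => ht1 hZ a b c d t) (fun a b c d t => ht2 hZ a b c d t)
      (fun a b c d t => ht3 hZ a b c d t) (fun a b c d t => ht4 hZ a b c d t)
      (fun a c t => ht5 hZ a c (Or.inl hij') t) (fun a c t => ht6 hZ a c (Or.inl hij') t)
      _ _ _ _ hj ?_
    intro a' b' c' d' hlt
    have hN := Nw_wv hZ (w (Sum.inl i)) (w (Sum.inr i)) (w (Sum.inl j)) (w (Sum.inr j))
    rw [← hwz, hij'] at hN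
    have hN' := Nw_wv hZ a' b' c' d'
    rw [hij'] at hN'
    refine ih (Nw (wv z i j a' b' c' d')) ?_ _ le_rfl
    refine lt_of_lt_of_le ?_ hw
    rw [hN, hN']
    have e : ((i : ℕ) + 1 + 1) = (i : ℕ) + 2 := rfl
    rw [e]
    omega
  · push Not at hj
    by_cases hg : g = 0
    · subst hg
      intro t
      have : T w t = 1 := by
        apply sp_ext_basis
        · intro i; exact i.elim0
        · intro i; exact i.elim0
      rw [this]
      exact one_mem _
    · have hg' : 0 < g := Nat.pos_of_ne_zero hg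
      have e : w = w (Sum.inl ⟨0, hg'⟩) • ve ⟨0, hg'⟩ + w (Sum.inr ⟨0, hg'⟩) • vf ⟨0, hg'⟩ := by
        refine co_ext fun k => ?_
        by_cases hk : (k : ℕ) = 0
        · have : k = ⟨0, hg'⟩ := Fin.ext hk
          subst this
          simp [ve, vf]
        · have hk' : k ≠ ⟨0, hg'⟩ := fun h' => hk (by rw [h'])
          rw [(hj k hk).1, (hj k hk).2]
          simp [ve, vf, hk']
      rw [e]
      exact inV_plane _ _ _ _ le_rfl

theorem hum : S_HUM := by
  intro g v t
  exact inV_all _ v le_rfl t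

end Pool.Agent.Q86.SC
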